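import Pool.Agent.U26Z.HP.Mono

set_option autoImplicit false

/-!
# The extremal densities are realised by homogeneous windows; the criterion
-/

namespace Pool.Agent.U26Z.HP

open Finset Filter Topology
open Pool.Agent.N610.HX (F R S_GR S_GH t_GR t_GH)
open Pool.Agent.N610.HX.HLp (F_mono R_ge F_ge floor_gt)

theorem Hom_mono {l ε ε' a b c b' x : ℝ} (h : Hom l ε' a c b' x) (hε : ε' ≤ ε) (hb : b ≤ c)
    (hx : 1 ≤ x) : Hom l ε a b b' x := by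
  classical
  unfold Hom at h ⊢
  have h0 : 0 ≤ x ^ b' := Real.rpow_nonneg (by linarith) _
  refine le_trans ?_ (h.trans (mul_le_mul_of_nonneg_right hε h0))
  norm_cast
  apply card_le_card
  intro n hn
  rw [mem_filter] at hn ⊢
  refine ⟨hn.1, fun h1 => hn.2 fun y hy1 hy2 => ?_⟩
  exact (h1 y hy1 (hy2.trans (Real.rpow_le_rpow_of_exponent_le hx hb))).trans hε

theorem freq_mono {l ε ε' a b c b' : ℝ} (h : ∃ᶠ x : ℝ in atTop, Hom l ε' a c b' x) (hε : ε' ≤ ε)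
    (hb : b ≤ c) : ∃ᶠ x : ℝ in atTop, Hom l ε a b b' x :=
  (h.and_eventually (eventually_ge_atTop 1)).mono fun _ hx => Hom_mono hx.1 hε hb hx.2

/-- a common form of the approximation -/
theorem near {f : ℝ → EReal} {a l η : ℝ} (hf : ContinuousAt f a) (hl : f a = (l : EReal))
    (hη : 0 < η) : ∃ r : ℝ, 0 < r ∧ ∀ t : ℝ, |t - a| < r →
      ((l - η : ℝ) : EReal) < f t ∧ f t < ((l + η : ℝ) : EReal) := by
  have h1 : ∀ᶠ t in 𝓝 a, ((l - η : ℝ) : EReal) < f t ∧ f t < ((l + η : ℝ) : EReal) := by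
    have h2 : ((l - η : ℝ) : EReal) < f a := by
      rw [hl]; exact_mod_cast (by linarith : l - η < l)
    have h3 : f a < ((l + η : ℝ) : EReal) := by
      rw [hl]; exact_mod_cast (by linarith : l < l + η)
    exact (hf.eventually (lt_mem_nhds h2)).and (hf.eventually (gt_mem_nhds h3))
  rw [Metric.eventually_nhds_iff] at h1
  obtain ⟨r, hr, h2⟩ := h1
  exact ⟨r, hr, fun t ht => h2 (by rwa [Real.dist_eq])⟩

/-- windows of density `v` at the exponent `θ` -/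
def Real' (θ v : ℝ) : Prop := ∀ ε : ℝ, 0 < ε → ∃ κ : ℝ, 0 < κ ∧ κ < θ ∧ θ + 2 * κ < 1 ∧
  ∃ᶠ x : ℝ in atTop, Hom v ε (θ - κ) (θ + κ) (θ + 2 * κ) x

theorem realL {θ l : ℝ} (h0 : 0 < θ) (h1 : θ < 1) (hc : ContinuousAt Lo θ) (hl : Lo θ = (l : EReal))
    (hl0 : 0 ≤ l) : Real' θ l := by
  intro ε hε
  have he1 : 0 < min ε 1 := lt_min hε one_pos
  obtain ⟨r, hr, h2⟩ := near (η := (min ε 1) ^ 2 / 100) hc hl (by positivity)
  obtain ⟨κ, hκ, hκ1, hκ2, hκ3⟩ : ∃ κ : ℝ, 0 < κ ∧ 2 * κ < r ∧ 2 * κ < θ ∧ θ + 2 * κ < 1 := by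
    refine ⟨min r (min θ (1 - θ)) / 3, ?_, ?_, ?_, ?_⟩
    · have : 0 < min r (min θ (1 - θ)) := lt_min hr (lt_min h0 (by linarith))
      positivity
    all_goals
      have h3 : min r (min θ (1 - θ)) ≤ r := min_le_left _ _
      have h4 : min r (min θ (1 - θ)) ≤ θ := (min_le_right _ _).trans (min_le_left _ _)
      have h5 : min r (min θ (1 - θ)) ≤ 1 - θ := (min_le_right _ _).trans (min_le_right _ _)
      linarith
  refine ⟨κ, hκ, by linarith, hκ3, ?_⟩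
  have h3 := (h2 (θ - 3 * κ / 2) (by rw [abs_lt]; constructor <;> linarith)).1
  have h4 := (h2 (θ + 2 * κ) (by rw [abs_lt]; constructor <;> linarith)).2
  exact freq_mono (homL (a' := θ - 3 * κ / 2) (a := θ - κ) (b := θ + κ) (b' := θ + 2 * κ) (by linarith)
    (by linarith) (by linarith) (by linarith) hκ3 hl0 he1 (min_le_right _ _) h3 h4)
    (min_le_left _ _) le_rfl

theorem realU {θ u : ℝ} (h0 : 0 < θ) (h1 : θ < 1) (hc : ContinuousAt Up θ) (hu : Up θ = (u : EReal))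
    (hu0 : 0 ≤ u) : Real' θ u := by
  intro ε hε
  have he1 : 0 < min ε 1 := lt_min hε one_pos
  obtain ⟨r, hr, h2⟩ := near (η := (min ε 1) ^ 2 / 100) hc hu (by positivity)
  obtain ⟨κ, hκ, hκ1, hκ2, hκ3⟩ : ∃ κ : ℝ, 0 < κ ∧ 2 * κ < r ∧ 2 * κ < θ ∧ θ + 2 * κ < 1 := by
    refine ⟨min r (min θ (1 - θ)) / 3, ?_, ?_, ?_, ?_⟩
    · have : 0 < min r (min θ (1 - θ)) := lt_min hr (lt_min h0 (by linarith))
      positivity
    all_goals
      have h3 : min r (min θ (1 - θ)) ≤ r := min_le_left _ _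
      have h4 : min r (min θ (1 - θ)) ≤ θ := (min_le_right _ _).trans (min_le_left _ _)
      have h5 : min r (min θ (1 - θ)) ≤ 1 - θ := (min_le_right _ _).trans (min_le_right _ _)
      linarith
  refine ⟨κ, hκ, by linarith, hκ3, ?_⟩
  have h3 := (h2 (θ - 3 * κ / 2) (by rw [abs_lt]; constructor <;> linarith)).2
  have h4 := (h2 (θ + 2 * κ) (by rw [abs_lt]; constructor <;> linarith)).1
  exact freq_mono (homU (a' := θ - 3 * κ / 2) (a := θ - κ) (b := θ + κ) (b' := θ + 2 * κ) (by linarith)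
    (by linarith) (by linarith) (by linarith) hκ3 hu0 he1 (min_le_right _ _) h3 h4)
    (min_le_left _ _) le_rfl

/-- the exceptional exponents -/
def Ex : Set ℝ := {θ | θ ∈ Set.Ioo (0 : ℝ) 1 ∧ ¬ ContinuousWithinAt Lo (Set.Ioo 0 1) θ} ∪
  {θ | θ ∈ Set.Ioo (0 : ℝ) 1 ∧ ¬ ContinuousWithinAt Up (Set.Ioo 0 1) θ}

theorem Ex_countable : Ex.Countable := by
  refine Set.Countable.union ?_ ?_
  · apply MonotoneOn.countable_not_continuousWithinAt
    intro a ha b hb hab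
    exact Lo_mono ha.1 hab hb.2.le
  · apply AntitoneOn.countable_not_continuousWithinAt
    intro a ha b hb hab
    exact Up_anti ha.1 hab hb.2.le

theorem cont {θ : ℝ} (h0 : 0 < θ) (h1 : θ < 1) (hE : θ ∉ Ex) : ContinuousAt Lo θ ∧ ContinuousAt Up θ := by
  unfold Ex at hE
  rw [Set.mem_union, not_or] at hE
  simp only [Set.mem_setOf_eq, not_and, not_not] at hE
  have hn : Set.Ioo (0 : ℝ) 1 ∈ 𝓝 θ := Ioo_mem_nhds h0 h1
  exact ⟨(hE.1 ⟨h0, h1⟩).continuousAt hn, (hE.2 ⟨h0, h1⟩).continuousAt hn⟩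

theorem extremal : ∀ θ : ℝ, 0 < θ → θ < 1 → θ ∉ Ex →
    ∃ l u : ℝ, Lo θ = (l : EReal) ∧ Up θ = (u : EReal) ∧ 0 ≤ l ∧ l ≤ 1 ∧ 1 ≤ u ∧ u ≤ 2 / θ ∧
      Real' θ l ∧ Real' θ u := by
  intro θ h0 h1 hE
  obtain ⟨hc1, hc2⟩ := cont h0 h1 hE
  obtain ⟨l, hl, hl0, hl1⟩ := real_of (c := 1) (Lo_nonneg θ) (by exact_mod_cast Lo_le_one h0 h1.le)
  obtain ⟨u, hu, hu0, hu1⟩ := real_of ((Lo_nonneg θ).trans (Lo_le_Up θ)) (Up_le h0 h1.le)
  have hu2 : 1 ≤ u := by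
    have := one_le_Up h0 h1.le
    rw [hu] at this
    exact_mod_cast this
  exact ⟨l, u, hl, hu, hl0, hl1, hu2, hu1, realL h0 h1 hc1 hl hl0, realU h0 h1 hc2 hu hu0⟩

/-- Q1 -/
def Q1 : Prop := ∀ ε : ℝ, 0 < ε → ∀ δ : ℝ, 0 < δ → ∀ᶠ x : ℝ in atTop, ∀ H : ℝ, x ^ ε ≤ H → H ≤ x →
  |R x H - 1| ≤ δ

/-- if Q1 fails, then at all small exponents one of the two densities is not `1` -/
theorem fails (h : ¬ Q1) : ∃ θ₀ : ℝ, 0 < θ₀ ∧ θ₀ < 1 ∧ ∀ θ : ℝ, 0 < θ → θ < θ₀ →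
    Lo θ ≠ 1 ∨ Up θ ≠ 1 := by
  unfold Q1 at h
  push Not at h
  obtain ⟨ε, hε, δ, hδ, h⟩ := h
  refine ⟨min ε 1 / 2, by positivity, ?_, fun θ h1 h2 => ?_⟩
  · have := min_le_right ε 1
    linarith
  · by_contra hcon
    push Not at hcon
    obtain ⟨hL, hU⟩ := hcon
    have hθε : θ < ε := by
      have := min_le_left ε 1
      linarith
    obtain ⟨δ', hδ', hδ1, hδδ⟩ : ∃ δ' : ℝ, 0 < δ' ∧ δ' < 1 ∧ δ' ≤ δ :=
      ⟨min δ (1 / 2), by positivity, lt_of_le_of_lt (min_le_right _ _) (by norm_num), min_le_left _ _⟩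
    have e1 : ∀ᶠ t : ℝ in atTop, 1 - δ' / 2 < R t (t ^ θ) := by
      have h3 : ((1 - δ' / 2 : ℝ) : EReal) < Lo θ := by
        rw [hL]
        exact_mod_cast (by linarith : 1 - δ' / 2 < 1)
      exact (eventually_lt_of_lt_liminf h3).mono fun x hx => by exact_mod_cast hx
    have e2 : ∀ᶠ t : ℝ in atTop, R t (t ^ θ) < 1 + δ' / 2 := by
      have h3 : Up θ < ((1 + δ' / 2 : ℝ) : EReal) := by
        rw [hU]
        exact_mod_cast (by linarith : 1 < 1 + δ' / 2)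
      exact (eventually_lt_of_limsup_lt h3).mono fun x hx => by exact_mod_cast hx
    have e3 := lower h1 hθε (c := 1 - δ') (c1 := 1 - δ' / 2) (by linarith) (by linarith) e1
    have e4 := upper h1 hθε (c := 1 + δ') (c1 := 1 + δ' / 2) (by linarith) (by linarith) e2
    obtain ⟨x, hx, h3, h4⟩ := (h.and_eventually (e3.and e4)).exists
    obtain ⟨H, hH1, hH2, hH3⟩ := hx
    have h5 := h3 H hH1 hH2
    have h6 := h4 H hH1 hH2
    have h7 : |R x H - 1| ≤ δ' := abs_le.2 ⟨by linarith, by linarith⟩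
    linarith

/-- a homogeneous window contains a good point -/
theorem point {l ε a b b' x θ : ℝ} (hε : ε ≤ 1 / 2) (hx : 1 ≤ x) (hb : 4 ≤ x ^ b') (h : Hom l ε a b b' x)
    (hbx : x ^ b' ≤ x) (ha : (2 * x) ^ θ ≤ x ^ b) (hb2 : x ^ a ≤ x ^ θ) (hθ : 0 < θ) :
    ∃ n : ℕ, x ≤ n ∧ (n : ℝ) ≤ 2 * x ∧ |R n ((n : ℝ) ^ θ) - l| ≤ ε := by
  classical
  by_contra hcon
  push Not at hcon
  unfold Hom at h
  have h1 : Ioc ⌊x⌋₊ ⌊x + x ^ b'⌋₊ ⊆ (Ioc ⌊x⌋₊ ⌊x + x ^ b'⌋₊).filter (fun n : ℕ => ¬ ∀ y : ℝ, x ^ a ≤ y →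
      y ≤ x ^ b → |R n y - l| ≤ ε) := by
    intro n hn
    rw [mem_filter]
    refine ⟨hn, fun h2 => ?_⟩
    rw [mem_Ioc] at hn
    have h3 : x ≤ n := (floor_gt hn.1).le
    have h4 : (n : ℝ) ≤ x + x ^ b' := (Nat.le_floor_iff (by positivity)).1 hn.2
    have h5 := hcon n h3 (by linarith)
    have h6 := h2 ((n : ℝ) ^ θ) (hb2.trans (Real.rpow_le_rpow (by linarith) h3 hθ.le))
      ((Real.rpow_le_rpow (by linarith) (by linarith) hθ.le).trans ha)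
    linarith
  have h2 := card_le_card h1
  have h3 : ((⌊x + x ^ b'⌋₊ - ⌊x⌋₊ : ℕ) : ℝ) ≤ ε * x ^ b' := by
    rw [Nat.card_Ioc] at h2
    refine le_trans ?_ h
    exact_mod_cast h2
  have h4 : ⌊x⌋₊ ≤ ⌊x + x ^ b'⌋₊ := Nat.floor_mono (by linarith)
  rw [Nat.cast_sub h4] at h3
  have h5 : (⌊x⌋₊ : ℝ) ≤ x := Nat.floor_le (by linarith)
  have h6 : x + x ^ b' < ⌊x + x ^ b'⌋₊ + 1 := Nat.lt_floor_add_one _
  have h7 : ε * x ^ b' ≤ 1 / 2 * x ^ b' := mul_le_mul_of_nonneg_right hε (by linarith)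
  linarith

theorem criterion : Q1 ↔ ∀ θ u : ℝ, 0 < θ → θ < 1 → 0 ≤ u → u ≠ 1 → ¬ Real' θ u := by
  constructor
  · intro h θ u h0 h1 hu hu1 hR
    have hd : 0 < |u - 1| := abs_pos.2 (sub_ne_zero.2 hu1)
    obtain ⟨κ, hκ, hκθ, hκ1, hf⟩ := hR (min (|u - 1| / 4) (1 / 2)) (by positivity)
    have h2 := h θ h0 (|u - 1| / 4) (by positivity)
    obtain ⟨T, hT⟩ := eventually_atTop.1 h2
    have e1 : ∀ᶠ x : ℝ in atTop, x ^ θ ≤ (1 / 2 ^ θ) * x ^ (θ + κ) :=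
      pow_small (by linarith) (by positivity)
    have e2 : ∀ᶠ x : ℝ in atTop, (4 : ℝ) ≤ x ^ (θ + 2 * κ) :=
      (tendsto_rpow_atTop (by linarith : 0 < θ + 2 * κ)).eventually_ge_atTop 4
    obtain ⟨x, hx, h3, h4, h5, h6⟩ := (hf.and_eventually (e1.and (e2.and
      ((eventually_ge_atTop T).and (eventually_ge_atTop 1))))).exists
    have hx0 : 0 < x := by linarith
    obtain ⟨n, hn1, hn2, hn3⟩ := point (θ := θ) (min_le_right _ _) h6 h4 hx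
      (pow_le_self h6 hκ1.le) (by
        rw [two_pow hx0]
        calc 2 ^ θ * x ^ θ ≤ 2 ^ θ * ((1 / 2 ^ θ) * x ^ (θ + κ)) :=
              mul_le_mul_of_nonneg_left h3 (by positivity)
          _ = x ^ (θ + κ) := by field_simp)
      (Real.rpow_le_rpow_of_exponent_le h6 (by linarith)) h0
    have h7 := hT n (by linarith) ((n : ℝ) ^ θ) le_rfl (pow_le_self (by linarith) h1.le)
    have h8 : |R n ((n : ℝ) ^ θ) - u| ≤ |u - 1| / 4 := hn3.trans (min_le_left _ _)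
    have h9 : |u - 1| ≤ |R n ((n : ℝ) ^ θ) - u| + |R n ((n : ℝ) ^ θ) - 1| := by
      have h10 : u - 1 = -(R n ((n : ℝ) ^ θ) - u) + (R n ((n : ℝ) ^ θ) - 1) := by ring
      calc |u - 1| = |-(R n ((n : ℝ) ^ θ) - u) + (R n ((n : ℝ) ^ θ) - 1)| := by rw [← h10]
        _ ≤ |-(R n ((n : ℝ) ^ θ) - u)| + |R n ((n : ℝ) ^ θ) - 1| := abs_add_le _ _
        _ = _ := by rw [abs_neg]
    linarith
  · intro h
    by_contra hQ
    obtain ⟨θ₀, h0, h1, h2⟩ := fails hQ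
    have h3 : ¬ (Set.Ioo 0 θ₀ ⊆ Ex) := by
      intro h4
      have h5 := (Ex_countable.mono h4)
      rw [Cardinal.Real.Ioo_countable_iff] at h5
      linarith
    rw [Set.not_subset] at h3
    obtain ⟨θ, hθ, hθE⟩ := h3
    obtain ⟨l, u, hl, hu, hl0, hl1, hu1, -, hrl, hru⟩ := extremal θ hθ.1 (hθ.2.trans h1) hθE
    rcases h2 θ hθ.1 hθ.2 with h4 | h4
    · refine h θ l hθ.1 (hθ.2.trans h1) hl0 ?_ hrl
      rintro rfl
      exact h4 hl
    · refine h θ u hθ.1 (hθ.2.trans h1) (by linarith) ?_ hru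
      rintro rfl
      exact h4 hu

/-! ### Exponents tending to zero -/

theorem zeroL : ∃ l : ℝ, 0 ≤ l ∧ l ≤ 1 ∧ Tendsto Lo (𝓝[>] 0) (𝓝 (l : EReal)) ∧
    ∀ ε M : ℝ, 0 < ε → 1 ≤ M → ∃ θ₀ : ℝ, 0 < θ₀ ∧ ∀ θ : ℝ, 0 < θ → θ < θ₀ →
      ∃ᶠ x : ℝ in atTop, Hom l ε θ (M * θ) (2 * M * θ) x := by
  obtain ⟨L, hL⟩ : ∃ L, L = sInf (Lo '' Set.Ioo 0 1) := ⟨_, rfl⟩
  have h0 : 0 ≤ L := by
    rw [hL]
    apply le_sInf
    rintro _ ⟨a, -, rfl⟩
    exact Lo_nonneg a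
  have h1 : L ≤ ((1 : ℝ) : EReal) := by
    rw [hL]
    have h2 : sInf (Lo '' Set.Ioo 0 1) ≤ Lo (1 / 2) :=
      sInf_le (Set.mem_image_of_mem Lo ⟨by norm_num, by norm_num⟩)
    refine h2.trans ?_
    exact_mod_cast Lo_le_one (by norm_num) (by norm_num)
  obtain ⟨l, hl, hl0, hl1⟩ := real_of h0 h1
  have hge : ∀ a : ℝ, 0 < a → a < 1 → (l : EReal) ≤ Lo a := by
    intro a ha ha1
    rw [← hl, hL]
    exact sInf_le (Set.mem_image_of_mem Lo ⟨ha, ha1⟩)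
  have hlt : ∀ b : EReal, (l : EReal) < b → ∃ r : ℝ, 0 < r ∧ r < 1 ∧ ∀ a : ℝ, 0 < a → a ≤ r → Lo a < b := by
    intro b hb
    rw [← hl, hL, sInf_lt_iff] at hb
    obtain ⟨_, ⟨r, hr, rfl⟩, h3⟩ := hb
    exact ⟨r, hr.1, hr.2, fun a ha har => lt_of_le_of_lt (Lo_mono ha har hr.2.le) h3⟩
  refine ⟨l, hl0, hl1, ?_, fun ε M hε hM => ?_⟩
  · refine tendsto_order.2 ⟨fun b hb => ?_, fun b hb => ?_⟩
    · filter_upwards [Ioo_mem_nhdsGT (show (0 : ℝ) < 1 by norm_num)] with a ha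
      exact lt_of_lt_of_le hb (hge a ha.1 ha.2)
    · obtain ⟨r, hr0, hr1, hr⟩ := hlt b hb
      filter_upwards [Ioo_mem_nhdsGT hr0] with a ha
      exact hr a ha.1 ha.2.le
  · have he1 : 0 < min ε 1 := lt_min hε one_pos
    have he2 : 0 < (min ε 1) ^ 2 / 100 := by positivity
    obtain ⟨r, hr0, hr1, hr⟩ := hlt ((l + (min ε 1) ^ 2 / 100 : ℝ) : EReal)
      (by exact_mod_cast (by linarith : l < l + (min ε 1) ^ 2 / 100))
    refine ⟨r / (2 * M), by positivity, fun θ hθ hθr => ?_⟩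
    rw [lt_div_iff₀ (by positivity)] at hθr
    have h2 : 2 * M * θ < r := by linarith
    have h3 : 0 < M * θ := by positivity
    have h4 : θ ≤ M * θ := by nlinarith
    have h5 : ((l - (min ε 1) ^ 2 / 100 : ℝ) : EReal) < Lo (θ / 2) :=
      lt_of_lt_of_le (by exact_mod_cast (by linarith : l - (min ε 1) ^ 2 / 100 < l))
        (hge _ (by linarith) (by linarith))
    refine freq_mono (homL (a' := θ / 2) (a := θ) (b := M * θ * (3 / 2)) (b' := 2 * M * θ) (by linarith)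
      (by linarith) (by linarith) (by linarith) (by linarith) hl0 he1 (min_le_right _ _) h5
      (hr _ (by linarith) h2.le)) (min_le_left _ _) (by linarith)

theorem zeroU : ∃ u : EReal, 1 ≤ u ∧ Tendsto Up (𝓝[>] 0) (𝓝 u) ∧
    ∀ v : ℝ, u = (v : EReal) → ∀ ε M : ℝ, 0 < ε → 1 ≤ M → ∃ θ₀ : ℝ, 0 < θ₀ ∧ ∀ θ : ℝ, 0 < θ → θ < θ₀ →
      ∃ᶠ x : ℝ in atTop, Hom v ε θ (M * θ) (2 * M * θ) x := by
  obtain ⟨U, hU⟩ : ∃ U, U = sSup (Up '' Set.Ioo 0 1) := ⟨_, rfl⟩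
  have hle : ∀ a : ℝ, 0 < a → a < 1 → Up a ≤ U := by
    intro a ha ha1
    rw [hU]
    exact le_sSup (Set.mem_image_of_mem Up ⟨ha, ha1⟩)
  have h1 : 1 ≤ U := (one_le_Up (by norm_num : (0 : ℝ) < 1 / 2) (by norm_num)).trans
    (hle _ (by norm_num) (by norm_num))
  have hgt : ∀ b : EReal, b < U → ∃ r : ℝ, 0 < r ∧ r < 1 ∧ ∀ a : ℝ, 0 < a → a ≤ r → b < Up a := by
    intro b hb
    rw [hU, lt_sSup_iff] at hb
    obtain ⟨_, ⟨r, hr, rfl⟩, h3⟩ := hb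
    exact ⟨r, hr.1, hr.2, fun a ha har => lt_of_lt_of_le h3 (Up_anti ha har hr.2.le)⟩
  refine ⟨U, h1, ?_, fun v hv ε M hε hM => ?_⟩
  · refine tendsto_order.2 ⟨fun b hb => ?_, fun b hb => ?_⟩
    · obtain ⟨r, hr0, hr1, hr⟩ := hgt b hb
      filter_upwards [Ioo_mem_nhdsGT hr0] with a ha
      exact hr a ha.1 ha.2.le
    · filter_upwards [Ioo_mem_nhdsGT (show (0 : ℝ) < 1 by norm_num)] with a ha
      exact lt_of_le_of_lt (hle a ha.1 ha.2) hb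
  · have hv1 : 1 ≤ v := by
      rw [hv] at h1
      exact_mod_cast h1
    have he1 : 0 < min ε 1 := lt_min hε one_pos
    have he2 : 0 < (min ε 1) ^ 2 / 100 := by positivity
    obtain ⟨r, hr0, hr1, hr⟩ := hgt ((v - (min ε 1) ^ 2 / 100 : ℝ) : EReal)
      (by rw [hv]; exact_mod_cast (by linarith : v - (min ε 1) ^ 2 / 100 < v))
    refine ⟨r / (2 * M), by positivity, fun θ hθ hθr => ?_⟩
    rw [lt_div_iff₀ (by positivity)] at hθr
    have h2 : 2 * M * θ < r := by linarith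
    have h3 : 0 < M * θ := by positivity
    have h4 : θ ≤ M * θ := by nlinarith
    have h5 : Up (θ / 2) < ((v + (min ε 1) ^ 2 / 100 : ℝ) : EReal) := by
      refine lt_of_le_of_lt (hle (θ / 2) (by linarith) (by linarith)) ?_
      rw [hv]
      exact_mod_cast (by linarith : v < v + (min ε 1) ^ 2 / 100)
    refine freq_mono (homU (a' := θ / 2) (a := θ) (b := M * θ * (3 / 2)) (b' := 2 * M * θ) (by linarith)
      (by linarith) (by linarith) (by linarith) (by linarith) (by linarith) he1 (min_le_right _ _) h5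
      (hr _ (by linarith) h2.le)) (min_le_left _ _) (by linarith)

end Pool.Agent.U26Z.HP
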