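import Pool.Agent.U26Z.HP.Win
import Pool.Agent.Cov.PNT
import Pool.Agent.H902R3.Task469C

set_option autoImplicit false

/-!
# Monotonicity and bounds for the lower and upper densities
-/

namespace Pool.Agent.U26Z.HP

open Finset Filter Topology
open Pool.Agent.N610.HX (F R S_GR S_GH t_GR t_GH)
open Pool.Agent.N610.HX.HLp (F_mono R_ge F_ge floor_gt)

theorem R_nonneg {x y : ℝ} (h1 : 1 ≤ Real.log x) (hy : 0 ≤ y) : 0 ≤ R x y := by
  unfold R
  have := F_mono (show x ≤ x + y by linarith)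
  exact div_nonneg (by linarith) (div_nonneg hy (by linarith))

theorem Lo_nonneg (a : ℝ) : 0 ≤ Lo a := by
  unfold Lo
  refine le_liminf_of_le (by isBoundedDefault) ?_
  filter_upwards [log_ev 1, eventually_gt_atTop 0] with x hx hx0
  have h3 : 0 < x ^ a := Real.rpow_pos_of_pos hx0 a
  exact_mod_cast R_nonneg hx h3.le

theorem Lo_le_Up (a : ℝ) : Lo a ≤ Up a := liminf_le_limsup

theorem tend_k {a b : ℝ} (hab : a < b) :
    Tendsto (fun L : ℝ => 2 ^ a * L ^ (-(b - a))) atTop (𝓝 0) := by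
  have h := (tendsto_rpow_neg_atTop (sub_pos.2 hab)).const_mul ((2 : ℝ) ^ a)
  rwa [mul_zero] at h

theorem tend_q : Tendsto (fun L : ℝ => L / (L + Real.log 2)) atTop (𝓝 1) := by
  have h1 : Tendsto (fun L : ℝ => 1 - Real.log 2 / (L + Real.log 2)) atTop (𝓝 (1 - 0)) := by
    refine tendsto_const_nhds.sub ?_
    exact tendsto_const_nhds.div_atTop (tendsto_atTop_add_const_right _ _ tendsto_id)
  rw [sub_zero] at h1
  refine h1.congr' ?_
  filter_upwards [eventually_gt_atTop (0 : ℝ)] with L hL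
  have h2 : 0 < Real.log 2 := Real.log_pos (by norm_num)
  field_simp
  ring

theorem log_z {x y : ℝ} (h0 : 0 < x) (hy : 0 ≤ y) (h2 : y ≤ x) :
    Real.log x ≤ Real.log (x + y) ∧ Real.log (x + y) ≤ Real.log x + Real.log 2 := by
  refine ⟨Real.log_le_log h0 (by linarith), ?_⟩
  rw [add_comm (Real.log x), ← Real.log_mul (by norm_num) h0.ne']
  exact Real.log_le_log (by linarith) (by linarith)

/-- lower bounds for longer windows, `x ^ a` replaced by any longer length -/
theorem lower {a b : ℝ} (ha : 0 < a) (hab : a < b) {c c1 : ℝ} (hc : c < c1)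
    (hc1 : 0 ≤ c1) (hT : ∀ᶠ t : ℝ in atTop, c1 < R t (t ^ a)) :
    ∀ᶠ x : ℝ in atTop, ∀ H : ℝ, x ^ b ≤ H → H ≤ x → c ≤ R x H := by
  obtain ⟨T, hT⟩ := eventually_atTop.1 hT
  have hk : Tendsto (fun x : ℝ => 2 ^ a * x ^ (-(b - a))) atTop (𝓝 0) := tend_k hab
  have hq : Tendsto (fun x : ℝ => Real.log x / (Real.log x + Real.log 2)) atTop (𝓝 1) :=
    tend_q.comp Real.tendsto_log_atTop
  have e1 := (hq.mul ((tendsto_const_nhds (x := (1 : ℝ))).sub hk)).const_mul c1
  rw [sub_zero, mul_one, mul_one] at e1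
  have e2 := e1.eventually (eventually_gt_nhds hc)
  have e3 := hk.eventually (eventually_lt_nhds (one_pos (α := ℝ)))
  filter_upwards [log_ev 1, e2, e3, eventually_ge_atTop T, eventually_ge_atTop 1]
    with x hx1 hx2 hx3 hx4 hx5 H hxb hHx
  have hx0 : 0 < x := by linarith
  have hL : 0 < Real.log x := by linarith
  have hY : 0 < H := lt_of_lt_of_le (Real.rpow_pos_of_pos hx0 b) hxb
  obtain ⟨z1, z2⟩ := log_z hx0 hY.le hHx
  obtain ⟨z, hz⟩ : ∃ z, z = x + H := ⟨_, rfl⟩
  rw [← hz] at z1 z2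
  have hzL : 0 < Real.log z := by linarith
  have hz0 : 0 < z := by linarith
  have k1 : z ^ a / H ≤ 2 ^ a * x ^ (-(b - a)) := by
    have h6 : z ^ a ≤ 2 ^ a * x ^ a := by
      rw [← two_pow hx0]
      exact Real.rpow_le_rpow (by linarith) (by linarith) ha.le
    have h7 : x ^ (-(b - a)) = x ^ a / x ^ b := by
      rw [← Real.rpow_sub hx0]
      congr 1
      ring
    rw [h7, ← mul_div_assoc]
    exact div_le_div₀ (by positivity) h6 (Real.rpow_pos_of_pos hx0 b) hxb
  have g := (t_GR F F_mono x z (z ^ a) 1 (c1 / Real.log z) one_pos (div_nonneg hc1 hzL.le)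
    (by rw [hz]; linarith)).1 (fun t ht1 ht2 => ?_)
  · have g1 : R x H = (F z - F x) * (Real.log x / H) := by
      unfold R
      rw [← hz]
      field_simp
    rw [g1]
    have g2 : c1 / Real.log z * (z - x - z ^ a) * (Real.log x / H) ≤
        (F z - F x) * (Real.log x / H) :=
      mul_le_mul_of_nonneg_right g (div_nonneg hL.le hY.le)
    refine le_trans ?_ g2
    have g3 : c1 / Real.log z * (z - x - z ^ a) * (Real.log x / H) =
        c1 * ((Real.log x / Real.log z) * (1 - z ^ a / H)) := by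
      have : z - x = H := by rw [hz]; ring
      rw [this]
      field_simp
    rw [g3]
    refine le_trans hx2.le (mul_le_mul_of_nonneg_left ?_ hc1)
    have g4 : Real.log x / (Real.log x + Real.log 2) ≤ Real.log x / Real.log z :=
      div_le_div_of_nonneg_left hL.le hzL z2
    have g5 : 1 - 2 ^ a * x ^ (-(b - a)) ≤ 1 - z ^ a / H := by linarith
    exact mul_le_mul g4 g5 (by linarith) (div_nonneg hL.le hzL.le)
  · have ht0 : 0 < t := by linarith
    have htz1 : t ≤ z := by linarith [Real.rpow_pos_of_pos hz0 a]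
    have htz : Real.log t ≤ Real.log z := Real.log_le_log ht0 htz1
    have htL : Real.log x ≤ Real.log t := Real.log_le_log hx0 ht1
    refine ⟨t ^ a, Real.one_le_rpow (by linarith) ha.le, Real.rpow_le_rpow (by linarith) htz1 ha.le, ?_⟩
    have r1 := hT t (by linarith)
    have hv : 0 < t ^ a := Real.rpow_pos_of_pos (by linarith) a
    unfold R at r1
    rw [lt_div_iff₀ (div_pos hv (by linarith))] at r1
    refine le_trans ?_ r1.le
    rw [div_mul_eq_mul_div, ← mul_div_assoc]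
    exact div_le_div_of_nonneg_left (mul_nonneg hc1 hv.le) (by linarith) htz

theorem upper {a b : ℝ} (ha : 0 < a) (hab : a < b) {c c1 : ℝ} (hc : c1 < c)
    (hc1 : 0 ≤ c1) (hT : ∀ᶠ t : ℝ in atTop, R t (t ^ a) < c1) :
    ∀ᶠ x : ℝ in atTop, ∀ H : ℝ, x ^ b ≤ H → H ≤ x → R x H ≤ c := by
  obtain ⟨T, hT⟩ := eventually_atTop.1 hT
  have hk : Tendsto (fun x : ℝ => 2 ^ a * x ^ (-(b - a))) atTop (𝓝 0) := tend_k hab
  have e1 := ((tendsto_const_nhds (x := (1 : ℝ))).add hk).const_mul c1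
  rw [add_zero, mul_one] at e1
  have e2 := e1.eventually (eventually_lt_nhds hc)
  filter_upwards [log_ev 1, e2, eventually_ge_atTop T, eventually_ge_atTop 1]
    with x hx1 hx2 hx4 hx5 H hxb hHx
  have hx0 : 0 < x := by linarith
  have hL : 0 < Real.log x := by linarith
  have hY : 0 < H := lt_of_lt_of_le (Real.rpow_pos_of_pos hx0 b) hxb
  obtain ⟨z1, z2⟩ := log_z hx0 hY.le hHx
  obtain ⟨z, hz⟩ : ∃ z, z = x + H := ⟨_, rfl⟩
  rw [← hz] at z1 z2
  have hzL : 0 < Real.log z := by linarith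
  have hz0 : 0 < z := by linarith
  have k1 : z ^ a / H ≤ 2 ^ a * x ^ (-(b - a)) := by
    have h6 : z ^ a ≤ 2 ^ a * x ^ a := by
      rw [← two_pow hx0]
      exact Real.rpow_le_rpow (by linarith) (by linarith) ha.le
    have h7 : x ^ (-(b - a)) = x ^ a / x ^ b := by
      rw [← Real.rpow_sub hx0]
      congr 1
      ring
    rw [h7, ← mul_div_assoc]
    exact div_le_div₀ (by positivity) h6 (Real.rpow_pos_of_pos hx0 b) hxb
  have g := (t_GR F F_mono x z (z ^ a) 1 (c1 / Real.log x) one_pos (div_nonneg hc1 hL.le)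
    (by rw [hz]; linarith)).2 (fun t ht1 ht2 => ?_)
  · have g1 : R x H = (F z - F x) * (Real.log x / H) := by
      unfold R
      rw [← hz]
      field_simp
    rw [g1]
    have g2 : (F z - F x) * (Real.log x / H) ≤
        c1 / Real.log x * (z - x + z ^ a) * (Real.log x / H) :=
      mul_le_mul_of_nonneg_right g (div_nonneg hL.le hY.le)
    refine le_trans g2 ?_
    have g3 : c1 / Real.log x * (z - x + z ^ a) * (Real.log x / H) =
        c1 * (1 + z ^ a / H) := by
      have : z - x = H := by rw [hz]; ring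
      rw [this]
      field_simp
    rw [g3]
    refine le_trans (mul_le_mul_of_nonneg_left ?_ hc1) hx2.le
    linarith
  · have ht0 : 0 < t := by linarith
    have htL : Real.log x ≤ Real.log t := Real.log_le_log hx0 ht1
    refine ⟨t ^ a, Real.one_le_rpow (by linarith) ha.le, Real.rpow_le_rpow (by linarith) ht2 ha.le, ?_⟩
    have r1 := hT t (by linarith)
    have hv : 0 < t ^ a := Real.rpow_pos_of_pos (by linarith) a
    unfold R at r1
    rw [div_lt_iff₀ (div_pos hv (by linarith))] at r1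
    refine le_trans r1.le ?_
    rw [div_mul_eq_mul_div, ← mul_div_assoc]
    exact div_le_div_of_nonneg_left (mul_nonneg hc1 hv.le) hL htL

theorem pow_le_self {x b : ℝ} (hx : 1 ≤ x) (hb : b ≤ 1) : x ^ b ≤ x := by
  calc x ^ b ≤ x ^ (1 : ℝ) := Real.rpow_le_rpow_of_exponent_le hx hb
    _ = x := Real.rpow_one x

theorem Lo_mono {a b : ℝ} (ha : 0 < a) (hab : a ≤ b) (hb : b ≤ 1) : Lo a ≤ Lo b := by
  rcases hab.eq_or_lt with rfl | hab
  · exact le_rfl
  refine EReal.ge_of_forall_gt_iff_ge.1 fun c hc => ?_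
  rcases le_or_gt c 0 with h0 | h0
  · exact le_trans (by exact_mod_cast h0) (Lo_nonneg b)
  · obtain ⟨c1, hc1, hc2⟩ := EReal.lt_iff_exists_real_btwn.1 hc
    have hcc : c < c1 := by exact_mod_cast hc1
    have e1 := eventually_lt_of_lt_liminf hc2
    have e2 := lower ha hab hcc (by linarith) (e1.mono fun t ht => by exact_mod_cast ht)
    refine le_liminf_of_le (by isBoundedDefault) ?_
    filter_upwards [e2, eventually_ge_atTop 1] with x hx hx1
    exact_mod_cast hx (x ^ b) le_rfl (pow_le_self hx1 hb)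

theorem Up_anti {a b : ℝ} (ha : 0 < a) (hab : a ≤ b) (hb : b ≤ 1) : Up b ≤ Up a := by
  rcases hab.eq_or_lt with rfl | hab
  · exact le_rfl
  refine EReal.le_of_forall_lt_iff_le.1 fun c hc => ?_
  obtain ⟨c1, hc1, hc2⟩ := EReal.lt_iff_exists_real_btwn.1 hc
  have hcc : c1 < c := by exact_mod_cast hc2
  have h0 : 0 ≤ Up a := (Lo_nonneg a).trans (Lo_le_Up a)
  have h1 : 0 ≤ c1 := by
    have := h0.trans hc1.le
    exact_mod_cast this
  have e1 := eventually_lt_of_limsup_lt hc1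
  have e2 := upper ha hab hcc h1 (e1.mono fun t ht => by exact_mod_cast ht)
  refine limsup_le_of_le (by isBoundedDefault) ?_
  filter_upwards [e2, eventually_ge_atTop 1] with x hx hx1
  exact_mod_cast hx (x ^ b) le_rfl (pow_le_self hx1 hb)

/-- the prime number theorem -/
theorem R_one : Tendsto (fun x : ℝ => R x (x ^ (1 : ℝ))) atTop (𝓝 1) := by
  have h1 := Pool.Agent.Cov.PNT.pi_tendsto
  have h2 : Tendsto (fun x : ℝ => (Nat.primeCounting ⌊2 * x⌋₊ : ℝ) * Real.log (2 * x) / (2 * x))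
      atTop (𝓝 1) := h1.comp (tendsto_id.const_mul_atTop (by norm_num : (0 : ℝ) < 2))
  have hq : Tendsto (fun x : ℝ => Real.log x / (Real.log x + Real.log 2)) atTop (𝓝 1) :=
    tend_q.comp Real.tendsto_log_atTop
  have h3 := ((h2.mul hq).const_mul 2).sub h1
  have e : (2 : ℝ) * (1 * 1) - 1 = 1 := by norm_num
  rw [e] at h3
  refine h3.congr' ?_
  filter_upwards [eventually_gt_atTop 1] with x hx
  have hx0 : 0 < x := by linarith
  have hl : 0 < Real.log x := Real.log_pos hx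
  have hl2 : 0 < Real.log 2 := Real.log_pos (by norm_num)
  unfold R F
  rw [Real.rpow_one, ← two_mul, Real.log_mul (by norm_num) hx0.ne']
  have h4 : 0 < Real.log 2 + Real.log x := by linarith
  have h5 : 0 < Real.log x + Real.log 2 := by linarith
  field_simp
  ring

theorem R_one' : Tendsto (fun x : ℝ => ((R x (x ^ (1 : ℝ)) : ℝ) : EReal)) atTop
    (𝓝 ((1 : ℝ) : EReal)) :=
  (continuous_coe_real_ereal.tendsto _).comp R_one

theorem Lo_one : Lo 1 = 1 := R_one'.liminf_eq

theorem Up_one : Up 1 = 1 := R_one'.limsup_eq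

theorem Lo_le_one {a : ℝ} (ha : 0 < a) (ha1 : a ≤ 1) : Lo a ≤ 1 := by
  rw [← Lo_one]
  exact Lo_mono ha ha1 le_rfl

theorem one_le_Up {a : ℝ} (ha : 0 < a) (ha1 : a ≤ 1) : 1 ≤ Up a := by
  rw [← Up_one]
  exact Up_anti ha ha1 le_rfl

theorem pc_sub {a b : ℕ} (h : a ≤ b) :
    (Nat.primeCounting b : ℝ) - Nat.primeCounting a = (((Ioc a b).filter Nat.Prime).card : ℝ) := by
  have h1 : (Nat.primeCounting b) = Nat.primeCounting a + ((Ioc a b).filter Nat.Prime).card := by
    unfold Nat.primeCounting Nat.primeCounting'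
    rw [Nat.count_eq_card_filter_range, Nat.count_eq_card_filter_range, ← card_union_of_disjoint]
    · congr 1
      ext n
      simp only [mem_filter, mem_range, mem_union, mem_Ioc]
      constructor
      · rintro ⟨h2, h3⟩
        rcases le_or_gt n a with h4 | h4
        · exact Or.inl ⟨by omega, h3⟩
        · exact Or.inr ⟨⟨h4, by omega⟩, h3⟩
      · rintro (⟨h2, h3⟩ | ⟨h2, h3⟩)
        · exact ⟨by omega, h3⟩
        · exact ⟨by omega, h3⟩
    · rw [disjoint_left]
      intro n hn hn'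
      simp only [mem_filter, mem_range, mem_Ioc] at hn hn'
      omega
  rw [h1]
  push_cast
  ring

/-- Brun-Titchmarsh for the windows of length `x ^ θ` -/
theorem Up_le {θ : ℝ} (h0 : 0 < θ) (h1 : θ ≤ 1) : Up θ ≤ ((2 / θ : ℝ) : EReal) := by
  refine EReal.le_of_forall_lt_iff_le.1 fun c hc => ?_
  have hc' : 2 / θ < c := by exact_mod_cast hc
  obtain ⟨ε, hε⟩ : ∃ ε, ε = (c * θ - 2) / 3 := ⟨_, rfl⟩
  rw [div_lt_iff₀ h0] at hc'
  have hε0 : 0 < ε := by rw [hε]; linarith
  obtain ⟨Y₀, hY₀, hbt⟩ := Pool.Agent.H902R3.C469.bt2 ε hε0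
  have e1 : Tendsto (fun x : ℝ => x ^ θ) atTop atTop := tendsto_rpow_atTop h0
  refine limsup_le_of_le (by isBoundedDefault) ?_
  filter_upwards [e1.eventually_ge_atTop (Y₀ : ℝ), e1.eventually_ge_atTop ((2 + ε) * 2 / ε),
    e1.eventually_ge_atTop 2, log_ev 1, eventually_ge_atTop 1] with x h2 h3 h4 h5 h6
  have hx0 : 0 < x := by linarith
  obtain ⟨y, hy⟩ : ∃ y, y = x ^ θ := ⟨_, rfl⟩
  rw [← hy] at h2 h3 h4 ⊢
  have hlogy : Real.log y = θ * Real.log x := by rw [hy, Real.log_rpow hx0]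
  have hY : Y₀ ≤ ⌊y⌋₊ + 1 := by
    have : Y₀ ≤ ⌊y⌋₊ := Nat.le_floor h2
    omega
  have h7 := hbt ⌊x⌋₊ (⌊y⌋₊ + 1) hY
  have h8 : ⌊x + y⌋₊ ≤ ⌊x⌋₊ + (⌊y⌋₊ + 1) := by
    have h9 : ⌊x + y⌋₊ < ⌊x⌋₊ + (⌊y⌋₊ + 1) + 1 := by
      rw [Nat.floor_lt (by linarith)]
      push_cast
      have := Nat.lt_floor_add_one x
      have := Nat.lt_floor_add_one y
      linarith
    omega
  have h9 : F (x + y) - F x ≤ (2 + ε) * ((⌊y⌋₊ + 1 : ℕ) : ℝ) / Real.log ((⌊y⌋₊ + 1 : ℕ) : ℝ) := by
    unfold F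
    rw [pc_sub (Nat.floor_mono (by linarith))]
    refine le_trans ?_ h7
    exact_mod_cast card_le_card (filter_subset_filter _ (Ioc_subset_Ioc_right h8))
  have h10 : y ≤ ((⌊y⌋₊ + 1 : ℕ) : ℝ) := by
    push_cast
    exact (Nat.lt_floor_add_one y).le
  have h11 : ((⌊y⌋₊ + 1 : ℕ) : ℝ) ≤ y + 1 := by
    push_cast
    linarith [Nat.floor_le (show 0 ≤ y by linarith)]
  have hly : 0 < Real.log y := Real.log_pos (by linarith)
  have h12 : (2 + ε) * ((⌊y⌋₊ + 1 : ℕ) : ℝ) / Real.log ((⌊y⌋₊ + 1 : ℕ) : ℝ) ≤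
      (2 + ε) * (y + 1) / Real.log y := by
    apply div_le_div₀ (by positivity) (mul_le_mul_of_nonneg_left h11 (by linarith)) hly
    exact Real.log_le_log (by linarith) h10
  have h13 : R x y ≤ c := by
    unfold R
    rw [div_div_eq_mul_div, div_le_iff₀ (by linarith)]
    have h14 : (F (x + y) - F x) * Real.log x ≤ (2 + ε) * (y + 1) / Real.log y * Real.log x :=
      mul_le_mul_of_nonneg_right (h9.trans h12) (by linarith)
    refine h14.trans ?_
    rw [hlogy]
    have h15 : (2 + ε) * (y + 1) / (θ * Real.log x) * Real.log x = (2 + ε) * (y + 1) / θ := by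
      field_simp
    rw [h15, div_le_iff₀ h0]
    have h16 : (2 + ε) * 2 ≤ ε * y := by
      rw [div_le_iff₀ hε0] at h3
      linarith
    have h17 : c * θ = 2 + 3 * ε := by rw [hε]; ring
    have h18 : c * y * θ = (2 + 3 * ε) * y := by rw [← h17]; ring
    rw [h18]
    nlinarith
  exact_mod_cast h13

theorem real_of {L : EReal} {c : ℝ} (h0 : 0 ≤ L) (h1 : L ≤ (c : EReal)) :
    ∃ l : ℝ, L = (l : EReal) ∧ 0 ≤ l ∧ l ≤ c := by
  have hb : L ≠ ⊥ := by
    rintro rfl
    exact absurd h0 (by simp)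
  have ht : L ≠ ⊤ := by
    rintro rfl
    exact absurd h1 (by
      rw [not_le]
      exact EReal.coe_lt_top c)
  refine ⟨L.toReal, (EReal.coe_toReal ht hb).symm, ?_, ?_⟩
  · have := EReal.coe_toReal ht hb
    rw [← this] at h0
    exact_mod_cast h0
  · have := EReal.coe_toReal ht hb
    rw [← this] at h1
    exact_mod_cast h1

end Pool.Agent.U26Z.HP
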