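import Pool.Agent.N610.HX.GH
import Pool.Agent.N610.HX.GR
import Pool.Agent.N610.HX.HL
import Pool.Agent.N610.HX.HU

set_option autoImplicit false

/-!
# Homogeneous windows at power scales: the upper densities, abstract form
-/

namespace Pool.Agent.U26Z.HP

open Finset Filter Topology
open Pool.Agent.N610.HX
open Pool.Agent.N610.HX.HUaux (R_lt lt_R R_nonneg)

theorem coreU (h1 : S_GR) (h2 : S_GH) {x Sg S S1 S2 Y l ε η : ℝ} (hl : 0 ≤ l) (hε : 0 < ε)
    (hε1 : ε ≤ 1) (hη : η = ε ^ 2 / 100) (hx : 1 ≤ x) (hL : 1 ≤ Real.log x)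
    (hT : ∀ t, x ≤ t → t ≤ 2 * x → ∃ v, 1 ≤ v ∧ v ≤ Sg ∧ F (t + v) - F t ≤ (l + η) / Real.log x * v)
    (hE2 : (l + η) * Sg ≤ η * S) (hE3 : l + 2 * η ≤ ε / 2 * Real.log x) (hE4 : Y + 2 * S2 ≤ x)
    (hE5 : (l + 2 * η) * (3 * S2) ≤ (η / 2) * Y) (hE6 : (l + 2 * η) * S ≤ (η / 2) * S1)
    (hS0 : 0 < S) (hSS1 : S ≤ S1) (hS12 : S1 ≤ S2) (hS1 : 1 ≤ S1) (hY0 : 0 < Y)
    (hR : l - η < R x Y) : ∀ B : Finset ℕ, (∀ n ∈ B, x < n ∧ (n : ℝ) ≤ x + Y ∧
      ∃ y, S1 ≤ y ∧ y ≤ S2 ∧ ¬ |R n y - l| ≤ ε) → (B.card : ℝ) ≤ ε * Y := by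
  set L := Real.log x with hLdef
  have hL0 : 0 < L := by linarith
  have hη0 : 0 < η := by rw [hη]; positivity
  have hηε : η ≤ ε / 100 := by
    rw [hη]
    have : ε ^ 2 ≤ ε := by nlinarith
    linarith
  have hlog : ∀ t, x ≤ t → t ≤ 2 * x → L ≤ Real.log t ∧ Real.log t ≤ L + 1 := by
    intro t ht1 ht2
    refine ⟨Real.log_le_log (by linarith) ht1, ?_⟩
    have h3 := Real.log_le_log (by linarith) ht2
    rw [Real.log_mul (by norm_num) (by linarith)] at h3
    have h4 : Real.log 2 ≤ 1 := by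
      have := Real.log_two_lt_d9
      linarith
    linarith
  -- (b) the upper bound for intervals which are not too short
  have hup : ∀ t y, x ≤ t → S ≤ y → t + y ≤ 2 * x → F (t + y) - F t ≤ (l + 2 * η) / L * y := by
    intro t y ht hy hty
    have hy0 : 0 < y := lt_of_lt_of_le hS0 hy
    have h3 := (h1 F HUaux.F_mono t (t + y) Sg 1 ((l + η) / L) one_pos
      (by positivity) (by linarith)).2 (by
        intro u hu1 hu2
        exact hT u (by linarith) (by linarith))
    have h4 : t + y - t + Sg = y + Sg := by ring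
    rw [h4] at h3
    refine h3.trans ?_
    rw [div_mul_eq_mul_div, div_mul_eq_mul_div]
    refine div_le_div_of_nonneg_right ?_ hL0.le
    have h5 : η * S ≤ η * y := mul_le_mul_of_nonneg_left hy hη0.le
    nlinarith
  suffices hmain : ∀ B : Finset ℕ, (∀ n ∈ B, x < n ∧ (n : ℝ) ≤ x + Y ∧
      ∃ y, S1 ≤ y ∧ y ≤ S2 ∧ R n y < l - ε) → (B.card : ℝ) ≤ ε * Y by
    intro B hB
    apply hmain
    intro n hn
    obtain ⟨h6, h7, y, hy1, hy2, hy3⟩ := hB n hn
    rw [not_le] at hy3
    refine ⟨h6, h7, ?_⟩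
    refine ⟨y, hy1, hy2, ?_⟩
    have hy1' : S1 ≤ y := hy1
    have hy2' : y ≤ S2 := hy2
    have hy0 : 0 < y := by linarith
    obtain ⟨h8, h9⟩ := hlog n h6.le (by linarith)
    have h10 : 0 < Real.log n := by linarith
    have h11 : ¬ l + ε < R n y := by
      intro h12
      have h13 := (lt_R h10 hy0).1 h12
      have h14 := hup n y h6.le (by linarith) (by linarith)
      have h15 : (F (n + y) - F n) * Real.log n ≤ (l + 2 * η) / L * y * (L + 1) := by
        refine mul_le_mul h14 h9 h10.le (by positivity)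
      have h16 : (l + 2 * η) / L * y * (L + 1) ≤ (l + ε) * y := by
        have e : (l + 2 * η) / L * y * (L + 1) = ((l + 2 * η) + (l + 2 * η) / L) * y := by
          field_simp
        rw [e]
        refine mul_le_mul_of_nonneg_right ?_ hy0.le
        have h17 : (l + 2 * η) / L ≤ ε / 2 := by
          rw [div_le_iff₀ hL0]
          exact hE3
        linarith
      linarith
    push Not at h11
    rcases lt_abs.1 hy3 with h12 | h12
    · linarith
    · linarith
  intro B hmem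
  rcases Finset.eq_empty_or_nonempty B with hBe | ⟨n0, hn0⟩
  · rw [hBe, Finset.card_empty]
    simp only [CharP.cast_eq_zero]
    positivity
  have hlε : ε < l := by
    obtain ⟨h3, h4, y, hy1, hy2, hy3⟩ := hmem n0 hn0
    obtain ⟨h8, h9⟩ := hlog n0 h3.le (by linarith)
    have := R_nonneg (x := n0) (y := y) (by linarith) (by linarith)
    linarith
  have h3 := (h2 F HUaux.F_mono x (x + Y) S S1 S2 ((l + 2 * η) / L) ((l - ε) / L) (by positivity)
    (div_nonneg (by linarith) hL0.le) hS0.le hSS1 hS1 hS12 (by linarith) B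
    (fun n hn => ⟨(hmem n hn).1.le, (hmem n hn).2.1⟩)).2
    (div_le_div_of_nonneg_right (by linarith) hL0.le)
    (fun t y ht hy hty => hup t y ht hy (by linarith)) (by
      intro n hn
      obtain ⟨h3, h4, y, hy1, hy2, hy3⟩ := hmem n hn
      obtain ⟨h8, h9⟩ := hlog n h3.le (by linarith)
      have hy0 : 0 < y := by linarith
      refine ⟨y, hy1, hy2, ?_⟩
      have h10 := (R_lt (show 0 < Real.log n by linarith) hy0).1 hy3
      have h11 : 0 ≤ F (n + y) - F n := by
        have := HUaux.F_mono (show (n : ℝ) ≤ n + y by linarith)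
        linarith
      rw [div_mul_eq_mul_div, le_div_iff₀ hL0]
      calc (F (n + y) - F n) * L ≤ (F (n + y) - F n) * Real.log n :=
            mul_le_mul_of_nonneg_left h8 h11
        _ ≤ _ := h10.le)
  have h4 := (lt_R hL0 hY0).1 hR
  have h5 : (F (x + Y) - F x) * L ≤ (l + 2 * η) * (1 + S / S1) * (x + Y + S2 - x) -
      (2 * η + ε) * (B.card / 2) + (l + 2 * η) * S := by
    have h6 := mul_le_mul_of_nonneg_right h3 hL0.le
    refine h6.trans (le_of_eq ?_)
    field_simp
    ring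
  have hS10 : 0 < S1 := by linarith
  have h6 : (l + 2 * η) * (S / S1) ≤ η / 2 := by
    rw [← mul_div_assoc, div_le_iff₀ hS10]
    exact hE6
  have h7 : S / S1 ≤ 1 := by rw [div_le_one hS10]; exact hSS1
  have h8 : 0 ≤ S / S1 := by positivity
  have hlη : 0 ≤ l + 2 * η := by linarith
  have h9 : (l + 2 * η) * (1 + S / S1) * (x + Y + S2 - x) ≤
      (l + 2 * η) * Y + (l + 2 * η) * (2 * S2) + η / 2 * Y := by
    have e : (l + 2 * η) * (1 + S / S1) * (x + Y + S2 - x) =
        (l + 2 * η) * Y + (l + 2 * η) * S2 + ((l + 2 * η) * (S / S1)) * Y +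
          (l + 2 * η) * S2 * (S / S1) := by ring
    rw [e]
    have h10 : ((l + 2 * η) * (S / S1)) * Y ≤ η / 2 * Y := mul_le_mul_of_nonneg_right h6 hY0.le
    have h11 : (l + 2 * η) * S2 * (S / S1) ≤ (l + 2 * η) * S2 * 1 :=
      mul_le_mul_of_nonneg_left h7 (mul_nonneg hlη (by linarith))
    linarith
  have h10 : (l + 2 * η) * S ≤ (l + 2 * η) * S2 :=
    mul_le_mul_of_nonneg_left (hSS1.trans hS12) hlη
  have hc0 : (0 : ℝ) ≤ B.card := Nat.cast_nonneg _
  have h11 : ε * (B.card / 2 : ℝ) ≤ 4 * η * Y := by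
    have h12 : 0 ≤ 2 * η * (B.card / 2 : ℝ) := by positivity
    linarith
  have h12 : ε * (B.card : ℝ) ≤ ε * (8 * ε / 100 * Y) := by
    rw [hη] at h11
    linarith
  have h13 : (B.card : ℝ) ≤ 8 * ε / 100 * Y := le_of_mul_le_mul_left h12 hε
  refine h13.trans ?_
  refine mul_le_mul_of_nonneg_right ?_ hY0.le
  linarith

end Pool.Agent.U26Z.HP
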