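import Pool.Agent.U26Z.HP.Up

set_option autoImplicit false

/-!
# Homogeneous windows at power scales
-/

namespace Pool.Agent.U26Z.HP

open Finset Filter Topology
open Pool.Agent.N610.HX (F R S_GR S_GH t_GR t_GH)
open Pool.Agent.N610.HX.HLp (F_mono R_ge F_ge floor_gt)

/-- the lower density of the windows of length `x ^ θ` -/
noncomputable def Lo (θ : ℝ) : EReal := liminf (fun x : ℝ => ((R x (x ^ θ) : ℝ) : EReal)) atTop

/-- the upper density of the windows of length `x ^ θ` -/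
noncomputable def Up (θ : ℝ) : EReal := limsup (fun x : ℝ => ((R x (x ^ θ) : ℝ) : EReal)) atTop

open Classical in
/-- the window `(x, x + x ^ b']` is homogeneous between the lengths `x ^ a` and `x ^ b` -/
def Hom (l ε a b b' x : ℝ) : Prop :=
  (((Ioc ⌊x⌋₊ ⌊x + x ^ b'⌋₊).filter (fun n : ℕ => ¬ ∀ y : ℝ, x ^ a ≤ y →
    y ≤ x ^ b → |R n y - l| ≤ ε)).card : ℝ) ≤ ε * x ^ b'

theorem pow_small {p q : ℝ} (h : p < q) {d : ℝ} (hd : 0 < d) :
    ∀ᶠ x : ℝ in atTop, x ^ p ≤ d * x ^ q := by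
  have h1 : Tendsto (fun y : ℝ => y ^ (-(q - p))) atTop (𝓝 0) :=
    tendsto_rpow_neg_atTop (by linarith)
  have h2 : ∀ᶠ y : ℝ in atTop, y ^ (-(q - p)) < d := h1.eventually_lt_const hd
  filter_upwards [h2, eventually_gt_atTop 0] with x h4 h5
  have h6 : x ^ p = x ^ (-(q - p)) * x ^ q := by
    rw [← Real.rpow_add h5]
    congr 1
    ring
  rw [h6]
  exact mul_le_mul_of_nonneg_right h4.le (Real.rpow_nonneg h5.le _)

theorem log_ev (c : ℝ) : ∀ᶠ x : ℝ in atTop, c ≤ Real.log x :=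
  Real.tendsto_log_atTop.eventually_ge_atTop c

theorem two_pow {x a : ℝ} (hx : 0 < x) : (2 * x) ^ a = 2 ^ a * x ^ a :=
  Real.mul_rpow (by norm_num) hx.le

theorem homL {a' a b b' l ε : ℝ} (ha' : 0 < a') (haa : a' < a) (hab : a < b) (hbb : b < b')
    (hb1 : b' < 1) (hl : 0 ≤ l) (hε : 0 < ε) (hε1 : ε ≤ 1)
    (hlo : ((l - ε ^ 2 / 100 : ℝ) : EReal) < Lo a') (hup : Lo b' < ((l + ε ^ 2 / 100 : ℝ) : EReal)) :
    ∃ᶠ x : ℝ in atTop, Hom l ε a b b' x := by
  obtain ⟨η, hη⟩ : ∃ η, η = ε ^ 2 / 100 := ⟨_, rfl⟩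
  rw [← hη] at hlo hup
  have hη0 : 0 < η := by rw [hη]; positivity
  obtain ⟨δ, hδ, hδε, hlδ⟩ : ∃ δ : ℝ, 0 < δ ∧ δ ≤ ε / 8 ∧ 3 * l * δ ≤ η := by
    refine ⟨min (ε / 8) (η / (3 * (l + 1))), lt_min (by positivity) (by positivity),
      min_le_left _ _, ?_⟩
    calc 3 * l * min (ε / 8) (η / (3 * (l + 1))) ≤ 3 * l * (η / (3 * (l + 1))) :=
          mul_le_mul_of_nonneg_left (min_le_right _ _) (by positivity)
      _ = η * (l / (l + 1)) := by field_simp
      _ ≤ η * 1 := mul_le_mul_of_nonneg_left ((div_le_one (by linarith)).2 (by linarith)) hη0.le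
      _ = η := mul_one _
  have hF : ∃ᶠ x : ℝ in atTop, R x (x ^ b') < l + η := by
    have h3 := frequently_lt_of_liminf_lt (by isBoundedDefault) hup
    exact h3.mono (fun x hx => by exact_mod_cast hx)
  have hE : ∀ᶠ t : ℝ in atTop, l - η < R t (t ^ a') := by
    have h3 := eventually_lt_of_lt_liminf hlo
    exact h3.mono (fun x hx => by exact_mod_cast hx)
  obtain ⟨T0, hT0⟩ := eventually_atTop.1 hE
  have e4 : ∀ᶠ x : ℝ in atTop, x ^ a' ≤ (δ / 2 ^ a') * x ^ ((a' + a) / 2) :=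
    pow_small (by linarith) (by positivity)
  have e5 : ∀ᶠ x : ℝ in atTop, x ^ ((a' + a) / 2) ≤ δ * x ^ a := pow_small (by linarith) hδ
  have e6 : ∀ᶠ x : ℝ in atTop, x ^ b ≤ δ * x ^ b' := pow_small hbb hδ
  have e7 : ∀ᶠ x : ℝ in atTop, x ^ (0 : ℝ) ≤ δ * x ^ b' := pow_small (by linarith) hδ
  have e8 : ∀ᶠ x : ℝ in atTop, x ^ ((a' + a) / 2) ≤ δ * x ^ b' := pow_small (by linarith) hδ
  have e9 : ∀ᶠ x : ℝ in atTop, x ^ b' ≤ 1 / 2 * x ^ (1 : ℝ) := pow_small hb1 (by norm_num)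
  have hall : ∀ᶠ x : ℝ in atTop, R x (x ^ b') < l + η → Hom l ε a b b' x := by
    filter_upwards [log_ev 1, log_ev (1 / δ), log_ev ((l + ε / 2) / (ε / 2)), e4, e5, e6, e7, e8, e9,
      eventually_ge_atTop 1, eventually_ge_atTop T0] with x e1 e2 e3 e4 e5 e6 e7 e8 e9 hx1 hxT hR
    have hx : 0 < x := by linarith
    rw [Real.rpow_one] at e9
    obtain ⟨Λ, hΛ⟩ : ∃ Λ, Λ = Real.log x := ⟨_, rfl⟩
    unfold Hom
    rw [← hΛ] at e1 e2 e3
    have hΛ0 : 0 < Λ := by linarith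
    have hY0 : 0 < x ^ b' := Real.rpow_pos_of_pos hx _
    refine Pool.Agent.N610.HX.HLp.core t_GR t_GH (Sg := (2 * x) ^ a') (S := x ^ ((a' + a) / 2))
      hx hΛ e1 hε hε1 hl hη hδ hδε
      hlδ ?_ (Real.rpow_nonneg (by linarith) _) ?_ e5 ?_ ?_ e6 ?_ e8 ?_ ?_ ?_ ?_
    · intro t ht ht'
      have hlt : Λ ≤ Real.log t := by rw [hΛ]; exact Real.log_le_log hx ht
      have hlt' : Real.log t ≤ Λ + 1 := by
        have h3 : Real.log t ≤ Real.log (2 * x) := Real.log_le_log (by linarith) ht'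
        rw [Real.log_mul (by norm_num) hx.ne'] at h3
        have h4 := Real.log_two_lt_d9
        rw [hΛ]
        linarith
      have hv1 : 1 ≤ t ^ a' := Real.one_le_rpow (by linarith) (by linarith)
      refine ⟨t ^ a', hv1, Real.rpow_le_rpow (by linarith) ht' (by linarith), ?_⟩
      rcases le_total (l - η) 0 with h3 | h3
      · rw [max_eq_right h3, zero_div, zero_mul]
        exact sub_nonneg.2 (F_mono (by linarith))
      · rw [max_eq_left h3]
        exact F_ge (by linarith) (by linarith) hlt' (hT0 t (by linarith)).le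
    · rw [two_pow hx]
      have h4 : (0 : ℝ) < 2 ^ a' := Real.rpow_pos_of_pos (by norm_num) _
      calc 2 ^ a' * x ^ a' ≤ 2 ^ a' * (δ / 2 ^ a' * x ^ ((a' + a) / 2)) :=
            mul_le_mul_of_nonneg_left e4 h4.le
        _ = δ * x ^ ((a' + a) / 2) := by field_simp
    · exact Real.one_le_rpow hx1 (by linarith)
    · exact Real.rpow_le_rpow_of_exponent_le hx1 hab.le
    · rw [Real.rpow_zero] at e7
      exact e7
    · have h3 : δ ≤ 1 := by linarith
      have h4 : x ^ b ≤ x ^ b' := Real.rpow_le_rpow_of_exponent_le hx1 hbb.le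
      linarith
    · rw [div_le_iff₀ hδ] at e2
      nlinarith
    · rw [div_le_iff₀ (by linarith)] at e3
      linarith
    · have h3 : R x (x ^ b') < l + η := hR
      unfold R at h3
      rw [← hΛ, div_lt_iff₀ (by positivity)] at h3
      calc F (x + x ^ b') - F x ≤ (l + η) * (x ^ b' / Λ) := h3.le
        _ = (l + η) * x ^ b' / Λ := by ring
  exact hF.mp hall

theorem homU {a' a b b' l ε : ℝ} (ha' : 0 < a') (haa : a' < a) (hab : a < b) (hbb : b < b')
    (hb1 : b' < 1) (hl : 0 ≤ l) (hε : 0 < ε) (hε1 : ε ≤ 1)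
    (hup : Up a' < ((l + ε ^ 2 / 100 : ℝ) : EReal)) (hlo : ((l - ε ^ 2 / 100 : ℝ) : EReal) < Up b') :
    ∃ᶠ x : ℝ in atTop, Hom l ε a b b' x := by
  obtain ⟨η, hη⟩ : ∃ η : ℝ, η = ε ^ 2 / 100 := ⟨_, rfl⟩
  rw [← hη] at hup hlo
  have hη0 : 0 < η := by rw [hη]; positivity
  unfold Up at hup hlo
  have e1 := eventually_lt_of_limsup_lt hup
  have e1' : ∀ᶠ t : ℝ in atTop, R t (t ^ a') < l + η := by
    filter_upwards [e1] with t ht
    exact EReal.coe_lt_coe_iff.1 ht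
  obtain ⟨T0, hT0⟩ := eventually_atTop.1 e1'
  have f1 := frequently_lt_of_lt_limsup (by isBoundedDefault) hlo
  have hη1 : 0 < l + 2 * η := by linarith
  have e2 : ∀ᶠ x : ℝ in atTop, x ^ a' ≤ (η / ((l + η) * 2 ^ a')) * x ^ ((a' + a) / 2) :=
    pow_small (by linarith) (by have : 0 < l + η := by linarith
                                positivity)
  have e4 : ∀ᶠ x : ℝ in atTop, x ^ b' ≤ 1 / 4 * x ^ (1 : ℝ) := pow_small hb1 (by norm_num)
  have e5 : ∀ᶠ x : ℝ in atTop, x ^ b ≤ (η / 2 / (3 * (l + 2 * η))) * x ^ b' :=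
    pow_small hbb (by positivity)
  have e6 : ∀ᶠ x : ℝ in atTop, x ^ ((a' + a) / 2) ≤ (η / 2 / (l + 2 * η)) * x ^ a :=
    pow_small (by linarith) (by positivity)
  have f2 := f1.and_eventually (e2.and (e4.and (e5.and (e6.and ((log_ev 1).and
    ((log_ev ((l + 2 * η) * 2 / ε)).and ((eventually_ge_atTop T0).and (eventually_ge_atTop 1))))))))
  refine f2.mono ?_
  rintro x ⟨h3, h4, h5, h6, h7, h8, h9, h10, h11⟩
  have h3' : l - η < R x (x ^ b') := EReal.coe_lt_coe_iff.1 h3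
  have hx : 0 < x := by linarith
  rw [Real.rpow_one] at h5
  have hbx : x ^ b ≤ x ^ b' := Real.rpow_le_rpow_of_exponent_le h11 hbb.le
  have hY0 : 0 < x ^ b' := Real.rpow_pos_of_pos hx _
  have key := coreU t_GR t_GH (x := x) (Sg := (2 * x) ^ a') (S := x ^ ((a' + a) / 2)) (S1 := x ^ a)
    (S2 := x ^ b) (Y := x ^ b') hl hε hε1 hη h11 h8 ?_ ?_ ?_ ?_ ?_ ?_
    (Real.rpow_pos_of_pos hx _) (Real.rpow_le_rpow_of_exponent_le h11 (by linarith))
    (Real.rpow_le_rpow_of_exponent_le h11 hab.le) (Real.one_le_rpow h11 (by linarith)) hY0 h3'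
  · unfold Hom
    apply key
    intro n hn
    classical
    obtain ⟨hn1, h12⟩ := Finset.mem_filter.1 hn
    obtain ⟨h13, h14⟩ := Finset.mem_Ioc.1 hn1
    have h16 : x < n := (Nat.floor_lt (by linarith)).1 h13
    have h17 : (n : ℝ) ≤ x + x ^ b' := (Nat.le_floor_iff (by positivity)).1 h14
    refine ⟨h16, h17, ?_⟩
    push Not at h12
    obtain ⟨y, hy1, hy2, hy3⟩ := h12
    exact ⟨y, hy1, hy2, not_le.2 hy3⟩
  · intro t ht ht'
    have ht0 : 0 < t := by linarith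
    have hv1 : 1 ≤ t ^ a' := Real.one_le_rpow (by linarith) (by linarith)
    refine ⟨t ^ a', hv1, Real.rpow_le_rpow (by linarith) ht' (by linarith), ?_⟩
    have hlt : Real.log x ≤ Real.log t := Real.log_le_log hx ht
    have h12 := (Pool.Agent.N610.HX.HUaux.R_lt (show 0 < Real.log t by linarith)
      (show 0 < t ^ a' by linarith)).1 (hT0 t (by linarith))
    have h13 : 0 ≤ F (t + t ^ a') - F t := sub_nonneg.2 (F_mono (by linarith))
    rw [div_mul_eq_mul_div, le_div_iff₀ (by linarith)]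
    calc (F (t + t ^ a') - F t) * Real.log x ≤ (F (t + t ^ a') - F t) * Real.log t :=
          mul_le_mul_of_nonneg_left hlt h13
      _ ≤ _ := h12.le
  · rw [two_pow hx]
    have h12 : (0 : ℝ) < 2 ^ a' := Real.rpow_pos_of_pos (by norm_num) _
    have h13 : 0 < l + η := by linarith
    calc (l + η) * (2 ^ a' * x ^ a') = (l + η) * 2 ^ a' * x ^ a' := by ring
      _ ≤ (l + η) * 2 ^ a' * ((η / ((l + η) * 2 ^ a')) * x ^ ((a' + a) / 2)) :=
          mul_le_mul_of_nonneg_left h4 (by positivity)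
      _ = η * x ^ ((a' + a) / 2) := by field_simp
  · rw [div_le_iff₀ hε] at h9
    linarith
  · linarith
  · calc (l + 2 * η) * (3 * x ^ b) = 3 * (l + 2 * η) * x ^ b := by ring
      _ ≤ 3 * (l + 2 * η) * ((η / 2 / (3 * (l + 2 * η))) * x ^ b') :=
          mul_le_mul_of_nonneg_left h6 (by positivity)
      _ = η / 2 * x ^ b' := by field_simp
  · calc (l + 2 * η) * x ^ ((a' + a) / 2) ≤ (l + 2 * η) * ((η / 2 / (l + 2 * η)) * x ^ a) :=
          mul_le_mul_of_nonneg_left h7 (by positivity)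
      _ = η / 2 * x ^ a := by field_simp

end Pool.Agent.U26Z.HP
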